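import Pool.Agent.Lib.helper3.HMain

namespace Pool.Agent.Results.MP_b18d32_an.Example

open Pool.Agent.Lib.helper3.HS

theorem result : ∃ A : CS, ¬ Hereditary A.alg ∧ ∀ (B : NonUnitalStarSubalgebra ℂ A.X)
    (hc : IsClosed (B : Set A.X)), (∀ a ∈ B, ∀ b ∈ B, a * b = b * a) →
      Hereditary (A.sub B hc).alg :=
  main

end Pool.Agent.Results.MP_b18d32_an.Example
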